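import Mathlib
import Pool.Agent.R463.NarLin

set_option autoImplicit false

/-!
# Narrow progressions of radicands with unique factorisation

Almost all elements of EVERY set of squarefree `d` for which `ℚ(√d)` has unique factorisation and the odd prime
factors of `d` exceed `d ^ (1 / r)` lie in narrow arithmetic progressions of elements of the set, in all intervals
of length at least `X ^ θ`.
-/

namespace Pool.Agent.Results.MP_321647_nt.NarrowProgressions

open Finset Filter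

/-- The integers all prime factors of which are larger than `m ^ (1 / r)`. -/
def RoughAt (r : ℕ) : Set ℕ := {m | ∀ p : ℕ, p.Prime → p ∣ m → (m : ℝ) ^ (1 / (r : ℝ)) < (p : ℝ)}

/-- `m` is a term of an `l`-term arithmetic progression with difference at most `D`, all terms of which
are elements of `A` in the interval `(a, b]`. -/
def InProgression (A : Set ℕ) (l : ℕ) (D : ℝ) (a b m : ℕ) : Prop :=
  ∃ u d : ℕ, 1 ≤ d ∧ (d : ℝ) ≤ D ∧ (∀ i < l, u + i * d ∈ A ∧ a < u + i * d ∧ u + i * d ≤ b) ∧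
    ∃ i < l, m = u + i * d

lemma InProgression.mono {A : Set ℕ} {l : ℕ} {D D' : ℝ} {a b m : ℕ} (h : InProgression A l D a b m)
    (hD : D ≤ D') : InProgression A l D' a b m := by
  obtain ⟨u, d, h1, h2, h3⟩ := h
  exact ⟨u, d, h1, h2.trans hD, h3⟩

/-- all primes are in `RoughAt r` -/
lemma prime_mem (r : ℕ) (hr : 2 ≤ r) (q : ℕ) (hq : q.Prime) : q ∈ RoughAt r := by
  intro p hp hd
  have h1 : p = q := (Nat.prime_dvd_prime_iff_eq hp hq).1 hd
  have h2 : (1 : ℝ) < q := by exact_mod_cast hq.one_lt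
  have hr2 : (2 : ℝ) ≤ r := by exact_mod_cast hr
  rw [h1]
  have h5 : (1 / (r : ℝ)) < 1 := by
    rw [div_lt_one (by linarith)]
    linarith
  have := Real.rpow_lt_rpow_of_exponent_lt h2 h5
  rwa [Real.rpow_one] at this

open Classical in
/-- the general theorem for the form `m` -/
lemma narrow (θ : ℝ) (hθ : 0 < θ) (r : ℕ) (hr : 2 ≤ r) (l : ℕ) (hl : 2 ≤ l) (ε : ℝ) (hε : 0 < ε) :
    ∃ B : ℕ, ∀ᶠ X : ℕ in atTop, ∀ Y : ℕ, (X : ℝ) ^ θ ≤ Y → Y ≤ X →
      ∀ A : Set ℕ, A ⊆ RoughAt r →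
        (((Ioc X (X + Y)).filter (fun m : ℕ =>
          m ∈ A ∧ ¬ InProgression A l (Real.log X ^ B) X (X + Y) m)).card : ℝ) ≤
        ε * (Y / Real.log X) := by
  obtain ⟨B, hB⟩ := Pool.Agent.R463.NL.narrow_lin one_pos (fun _ : Fin 1 => 1) (fun _ => 0) (fun _ => one_pos)
    (fun _ => by rw [Nat.cast_one]; exact isCoprime_one_left) (fun i j _ _ => Subsingleton.elim i j) (fun p hp => ⟨1, fun _ h => by
      have h1 : (p : ℤ) ∣ ((1 : ℕ) : ℤ) := by simpa using h
      exact hp.one_lt.ne' (Nat.dvd_one.1 (Int.natCast_dvd_natCast.1 h1))⟩) θ hθ r hr l hl ε hε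
  refine ⟨B, ?_⟩
  filter_upwards [hB] with X hX Y hXY hYX A hA
  have h := hX Y hXY hYX A (fun m hm => by
    intro i p hp hd
    refine hA hm p hp ?_
    have h1 : (p : ℤ) ∣ (m : ℤ) := by simpa using hd
    exact_mod_cast h1)
  rw [pow_one] at h
  exact h

/-- the real quadratic field `ℚ(√d)` has class number one, that is, unique factorisation -/
def ClassOne (d : ℕ) : Prop :=
  ∀ (K : Type) [Field K] [NumberField K], Module.finrank ℚ K = 2 → (∃ x : K, x ^ 2 = (d : K)) →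
    NumberField.classNumber K = 1

/-- `d > 1` is squarefree and all its odd prime factors are larger than `d ^ (1 / r)` -/
def Radicand (r d : ℕ) : Prop :=
  1 < d ∧ Squarefree d ∧ ∀ p : ℕ, p.Prime → p ≠ 2 → p ∣ d → (d : ℝ) ^ (1 / (r : ℝ)) < (p : ℝ)

open Classical in
/-- for sets of radicands -/
lemma main (θ : ℝ) (hθ : 0 < θ) (r : ℕ) (hr : 2 ≤ r) (l : ℕ) (hl : 2 ≤ l) (ε : ℝ) (hε : 0 < ε) :
    ∃ B : ℕ, ∀ᶠ X : ℕ in atTop, ∀ Y : ℕ, (X : ℝ) ^ θ ≤ Y → 2 * Y ≤ X →
      ∀ A : Set ℕ, (∀ d ∈ A, Radicand r d) →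
        (((Ioc X (X + Y)).filter (fun m : ℕ =>
          m ∈ A ∧ ¬ InProgression A l (Real.log X ^ B) X (X + Y) m)).card : ℝ) ≤
        ε * (Y / Real.log X) := by
  obtain ⟨B, hB⟩ := narrow (θ / 2) (by positivity) r hr l hl (ε / 4) (by positivity)
  refine ⟨B + 1, ?_⟩
  have hB2 := hB
  rw [eventually_atTop] at hB2
  obtain ⟨X₀, hX₀⟩ := hB2
  have hlog : ∀ᶠ n : ℕ in atTop, (2 : ℝ) ≤ Real.log n :=
    (Real.tendsto_log_atTop.comp tendsto_natCast_atTop_atTop).eventually_ge_atTop 2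
  have hpow : ∀ᶠ n : ℕ in atTop, (4 : ℝ) ≤ (n : ℝ) ^ (θ / 2) :=
    ((tendsto_rpow_atTop (by positivity)).comp tendsto_natCast_atTop_atTop).eventually_ge_atTop _
  filter_upwards [hB, hlog, hpow, eventually_ge_atTop (2 * X₀ + 4)] with X hX hlX hpX hX4 Y hXY hYX A hA
  have hXr : (4 : ℝ) ≤ X := by exact_mod_cast (by omega : 4 ≤ X)
  have hX0 : (0 : ℝ) < X := by linarith
  have hL1 : (1 : ℝ) ≤ Real.log X := by linarith
  -- the odd radicands
  have hθY : (X : ℝ) ^ (θ / 2) ≤ Y :=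
    (Real.rpow_le_rpow_of_exponent_le (by linarith) (by linarith)).trans hXY
  obtain ⟨A₁, hA₁⟩ : ∃ A₁ : Set ℕ, ∀ d, d ∈ A₁ ↔ d ∈ A ∧ ¬ 2 ∣ d := ⟨{d | d ∈ A ∧ ¬ 2 ∣ d}, fun _ => Iff.rfl⟩
  obtain ⟨A₂, hA₂⟩ : ∃ A₂ : Set ℕ, ∀ m, m ∈ A₂ ↔ 2 * m ∈ A := ⟨{m | 2 * m ∈ A}, fun _ => Iff.rfl⟩
  have hodd := hX Y hθY (by omega) A₁ (fun d hd p hp hpd => by
    have hd' := (hA₁ d).1 hd
    exact (hA d hd'.1).2.2 p hp (fun h2 => hd'.2 (by rw [← h2]; exact hpd)) hpd)
  -- the halves of the even radicands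
  obtain ⟨X', hX'⟩ : ∃ X' : ℕ, X' = X / 2 := ⟨_, rfl⟩
  obtain ⟨Y', hY'⟩ : ∃ Y' : ℕ, Y' = (X + Y) / 2 - X / 2 := ⟨_, rfl⟩
  have h1 : Y' ≤ X' := by omega
  have h2 : 2 * Y' ≤ Y + 1 := by omega
  have h3 : Y ≤ 2 * Y' + 1 := by omega
  have hX'0 : 2 ≤ X' := by omega
  have hY1 : (4 : ℝ) * (X : ℝ) ^ (θ / 2) ≤ Y := by
    have e : (X : ℝ) ^ θ = (X : ℝ) ^ (θ / 2) * (X : ℝ) ^ (θ / 2) := by
      rw [← Real.rpow_add hX0]
      congr 1
      ring
    have h4 : 0 ≤ (X : ℝ) ^ (θ / 2) := by positivity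
    nlinarith
  have hX'X : (X' : ℝ) ≤ X := by exact_mod_cast (by omega : X' ≤ X)
  have hY'r : (X' : ℝ) ^ (θ / 2) ≤ Y' := by
    have h5 : (X' : ℝ) ^ (θ / 2) ≤ (X : ℝ) ^ (θ / 2) := Real.rpow_le_rpow (Nat.cast_nonneg _) hX'X (by positivity)
    have h6 : (Y : ℝ) ≤ 2 * Y' + 1 := by exact_mod_cast h3
    linarith
  have heven := hX₀ X' (by omega) Y' hY'r h1 A₂ (fun m hm p hp hpd => by
    have hrad := hA _ ((hA₂ m).1 hm)
    by_cases hp2 : p = 2
    · exfalso
      rw [hp2] at hpd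
      have h7 : 2 * 2 ∣ 2 * m := Nat.mul_dvd_mul_left 2 hpd
      have h8 := hrad.2.1 2 h7
      exact absurd (Nat.isUnit_iff.1 h8) (by norm_num)
    · have h7 := hrad.2.2 p hp hp2 (hpd.mul_left 2)
      refine lt_of_le_of_lt ?_ h7
      apply Real.rpow_le_rpow (Nat.cast_nonneg _) _ (by positivity)
      exact_mod_cast (by omega : m ≤ 2 * m))
  have hlX' : Real.log X' ≤ Real.log X :=
    Real.log_le_log (by exact_mod_cast (by omega : 0 < X')) hX'X
  have hlX'2 : Real.log X ≤ 2 * Real.log X' := by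
    have h7 : (X : ℝ) ≤ (X' : ℝ) ^ 2 * 2 := by
      have : X ≤ X' ^ 2 * 2 := by nlinarith [Nat.div_add_mod X 2, Nat.mod_lt X (by norm_num : 2 > 0)]
      exact_mod_cast this
    have h8 : Real.log X ≤ Real.log ((X' : ℝ) ^ 2 * 2) := Real.log_le_log hX0 h7
    have hX'r : (2 : ℝ) ≤ X' := by exact_mod_cast hX'0
    rw [Real.log_mul (by positivity) (by norm_num), Real.log_pow] at h8
    have h9 : Real.log 2 ≤ Real.log X' := Real.log_le_log (by norm_num) hX'r
    push_cast at h8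
    have h10 : Real.log X' = Real.log X' := rfl
    have hsq : X ≤ X' ^ 2 ∨ X' = 2 := by
      by_cases h : X' = 2
      · exact Or.inr h
      · left
        have : 3 ≤ X' := by omega
        nlinarith [Nat.div_add_mod X 2, Nat.mod_lt X (by norm_num : 2 > 0)]
    rcases hsq with hsq | hsq
    · have h11 : (X : ℝ) ≤ (X' : ℝ) ^ 2 := by exact_mod_cast hsq
      have h12 := Real.log_le_log hX0 h11
      rw [Real.log_pow] at h12
      push_cast at h12
      exact h12
    · exfalso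
      have h13 : X ≤ 5 := by omega
      have h14 : Real.log X ≤ Real.log 5 := Real.log_le_log hX0 (by exact_mod_cast h13)
      have h15 : Real.log 5 < 2 := by
        rw [Real.log_lt_iff_lt_exp (by norm_num)]
        have := Real.exp_one_gt_d9
        have h16 : Real.exp 2 = Real.exp 1 * Real.exp 1 := by
          rw [← Real.exp_add]
          norm_num
        rw [h16]
        nlinarith
      linarith
  have hlpos : 0 < Real.log X' := by linarith
  -- the covering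
  have hcov : ((Ioc X (X + Y)).filter (fun m : ℕ =>
      m ∈ A ∧ ¬ InProgression A l (Real.log X ^ (B + 1)) X (X + Y) m)) ⊆
      ((Ioc X (X + Y)).filter (fun m : ℕ =>
        m ∈ A₁ ∧ ¬ InProgression A₁ l (Real.log X ^ B) X (X + Y) m)) ∪
      ((Ioc X' (X' + Y')).filter (fun m : ℕ =>
        m ∈ A₂ ∧ ¬ InProgression A₂ l (Real.log X' ^ B) X' (X' + Y') m)).image
          (fun m => 2 * m) := by
    intro m hm
    rw [mem_filter, mem_Ioc] at hm
    obtain ⟨⟨hm1, hm2⟩, hmA, hmn⟩ := hm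
    rw [mem_union]
    have hBB : Real.log X ^ B ≤ Real.log X ^ (B + 1) := pow_le_pow_right₀ hL1 (by omega)
    by_cases h2m : 2 ∣ m
    · right
      obtain ⟨n, rfl⟩ := h2m
      rw [mem_image]
      refine ⟨n, ?_, rfl⟩
      rw [mem_filter, mem_Ioc]
      refine ⟨by omega, (hA₂ n).2 hmA, ?_⟩
      rintro ⟨u, d, hd1, hd2, hall, i, hi, hni⟩
      apply hmn
      refine ⟨2 * u, 2 * d, by omega, ?_, ?_, i, hi, by rw [hni]; ring⟩
      · push_cast
        have h8 : Real.log X' ^ B ≤ Real.log X ^ B := pow_le_pow_left₀ hlpos.le hlX' B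
        have h9 : 0 ≤ Real.log X ^ B := by positivity
        rw [pow_succ]
        nlinarith
      · intro j hj
        obtain ⟨g1, g2, g3⟩ := hall j hj
        have e : 2 * u + j * (2 * d) = 2 * (u + j * d) := by ring
        rw [e]
        refine ⟨(hA₂ _).1 g1, by omega, by omega⟩
    · left
      rw [mem_filter, mem_Ioc]
      refine ⟨⟨hm1, hm2⟩, (hA₁ m).2 ⟨hmA, h2m⟩, ?_⟩
      rintro ⟨u, d, hd1, hd2, hall, hi⟩
      exact hmn ⟨u, d, hd1, hd2.trans hBB, fun j hj => ⟨((hA₁ _).1 (hall j hj).1).1, (hall j hj).2⟩, hi⟩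
  have hc := card_le_card hcov
  have hc2 := hc.trans (card_union_le _ _)
  have hc3 := hc2.trans (Nat.add_le_add_left card_image_le _)
  have hc4 : (((Ioc X (X + Y)).filter (fun m : ℕ =>
      m ∈ A ∧ ¬ InProgression A l (Real.log X ^ (B + 1)) X (X + Y) m)).card : ℝ) ≤
      (((Ioc X (X + Y)).filter (fun m : ℕ =>
        m ∈ A₁ ∧ ¬ InProgression A₁ l (Real.log X ^ B) X (X + Y) m)).card : ℝ) +
      (((Ioc X' (X' + Y')).filter (fun m : ℕ =>
        m ∈ A₂ ∧ ¬ InProgression A₂ l (Real.log X' ^ B) X' (X' + Y') m)).card : ℝ) := by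
    exact_mod_cast hc3
  refine hc4.trans ((add_le_add hodd heven).trans ?_)
  have hYpos : (0 : ℝ) ≤ Y := Nat.cast_nonneg _
  have hY16 : (1 : ℝ) ≤ Y := by linarith
  have h5 : (Y' : ℝ) ≤ Y := by
    have : 2 * Y' ≤ 2 * Y := by
      have : 1 ≤ Y := by exact_mod_cast hY16
      omega
    exact_mod_cast (by omega : Y' ≤ Y)
  have h6 : (Y' : ℝ) / Real.log X' ≤ 2 * (Y / Real.log X) := by
    rw [div_le_iff₀ hlpos]
    have h7 : 2 * ((Y : ℝ) / Real.log X) * Real.log X' = (Y / Real.log X) * (2 * Real.log X') := by ring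
    rw [h7]
    calc (Y' : ℝ) ≤ Y := h5
      _ = (Y / Real.log X) * Real.log X := by field_simp
      _ ≤ _ := mul_le_mul_of_nonneg_left hlX'2 (by positivity)
  have h7 : 0 ≤ (Y : ℝ) / Real.log X := by positivity
  nlinarith

open Classical in
/-- **Narrow progressions of radicands with unique factorisation.** Let `θ > 0`, `r, l ≥ 2` and `ε > 0`. There
is `B` such that for all large `X`, all `X ^ θ ≤ Y ≤ X / 2` and EVERY set `A` of squarefree `d > 1` whose odd
prime factors exceed `d ^ (1 / r)` and for which `ℚ(√d)` has unique factorisation, for instance the set of all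
of them: all but at most `ε Y / log X` of the elements of `A` in `(X, X + Y]` are terms of `l`-term arithmetic
progressions, contained in the part of `A` in `(X, X + Y]`, with difference at most `(log X) ^ B`. The same holds
for every set of such `d` for which `ℚ(√d)` does not have unique factorisation. -/
theorem result (θ : ℝ) (hθ : 0 < θ) (r : ℕ) (hr : 2 ≤ r) (l : ℕ) (hl : 2 ≤ l) (ε : ℝ) (hε : 0 < ε) :
    ∃ B : ℕ, ∀ᶠ X : ℕ in atTop, ∀ Y : ℕ, (X : ℝ) ^ θ ≤ Y → 2 * Y ≤ X →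
      ∀ A : Set ℕ, ((∀ d ∈ A, Radicand r d ∧ ClassOne d) ∨ (∀ d ∈ A, Radicand r d ∧ ¬ ClassOne d)) →
        (((Ioc X (X + Y)).filter (fun m : ℕ =>
          m ∈ A ∧ ¬ InProgression A l (Real.log X ^ B) X (X + Y) m)).card : ℝ) ≤
        ε * (Y / Real.log X) := by
  obtain ⟨B, hB⟩ := main θ hθ r hr l hl ε hε
  refine ⟨B, ?_⟩
  filter_upwards [hB] with X hX Y hXY hYX A hA
  refine hX Y hXY hYX A (fun d hd => ?_)
  rcases hA with hA | hA
  · exact (hA d hd).1
  · exact (hA d hd).1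

end Pool.Agent.Results.MP_321647_nt.NarrowProgressions
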