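import Mathlib
import Pool.Agent.R463.PrReg

set_option autoImplicit false

/-!
# Radicands with unique factorisation around a typical one, at all scales

Almost all elements of every set of squarefree `d` for which `ℚ(√d)` has unique factorisation and all prime
factors of `d` exceed `d ^ (1 / r)` see the set in all windows around them with the right order of magnitude, and
at all scales with few exceptions with a constant density.
-/

namespace Pool.Agent.Results.MP_321647_nt.RegularPoints

open Finset Filter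
open Pool.Agent.R463.PrReg

/-- the real quadratic field `ℚ(√d)` has class number one, that is, unique factorisation -/
def ClassOne (d : ℕ) : Prop :=
  ∀ (K : Type) [Field K] [NumberField K], Module.finrank ℚ K = 2 → (∃ x : K, x ^ 2 = (d : K)) →
    NumberField.classNumber K = 1

/-- `d > 1` is squarefree and all its prime factors are larger than `d ^ (1 / r)` -/
def Radicand (r d : ℕ) : Prop :=
  1 < d ∧ Squarefree d ∧ ∀ p : ℕ, p.Prime → p ∣ d → (d : ℝ) ^ (1 / (r : ℝ)) < (p : ℝ)

open Classical in
/-- **Radicands with unique factorisation at all scales.** Let `0 < θ ≤ 1`. For all large `r` and all `ε > 0`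
there is `c > 0`, and for all `δ > 0` there is `B`, such that for all large `X`, all `X ^ θ ≤ Y ≤ X / 2` and
EVERY set `A` of squarefree `d > 1` without prime factor `≤ d ^ (1 / r)` for which `ℚ(√d)` has unique
factorisation, for instance the set of all of them (and also for every set `A` of such `d` for which it has not):
at most `ε Y / log X` elements `m` of `A` in `(X, X + Y]` are not regular points of `A`. Regular point: (1) all
intervals `(m - s, m + t]` with `s, t ≤ Y` and `c (s + t) ≥ log X` contain between `c (s + t) / log X` and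
`(s + t) / (c log X)` elements of `A`; (2) for all scales `log X ≤ 2 ^ j ≤ Y` with at most `B` exceptions there is
a proportion `c ≤ lam ≤ 1 / c` such that all `(m - s, m + t]`, `s, t ≤ 2 ^ j`, contain `lam (s + t) / log X`
elements of `A`, up to `δ 2 ^ j / log X`. -/
theorem result (θ : ℝ) (hθ : 0 < θ) (hθ1 : θ ≤ 1) : ∃ r₀ : ℕ, ∀ r : ℕ, r₀ ≤ r → ∀ ε : ℝ, 0 < ε →
    ∃ c : ℝ, 0 < c ∧ ∀ δ : ℝ, 0 < δ → ∃ B : ℕ, ∀ᶠ X : ℕ in atTop, ∀ Y : ℕ, (X : ℝ) ^ θ ≤ Y → 2 * Y ≤ X →
      ∀ A : Set ℕ, ((∀ d ∈ A, Radicand r d ∧ ClassOne d) ∨ (∀ d ∈ A, Radicand r d ∧ ¬ ClassOne d)) →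
        (((Ioc X (X + Y)).filter (fun m => m ∈ A ∧ ¬ Regular A c δ B X Y m)).card : ℝ) ≤
          ε * Y / Real.log X := by
  obtain ⟨r₀, hr₀, h⟩ := reg θ hθ hθ1
  refine ⟨r₀, fun r hr ε hε => ?_⟩
  obtain ⟨c, hc, h1⟩ := h r hr ε hε
  refine ⟨c, hc, fun δ hδ => ?_⟩
  obtain ⟨B, h2⟩ := h1 δ hδ
  refine ⟨B, ?_⟩
  filter_upwards [h2] with X hX Y hXY hYX A hA
  refine hX Y hXY hYX A (fun d hd => ?_)
  rcases hA with hA | hA
  · exact (hA d hd).1.2.2
  · exact (hA d hd).1.2.2

end Pool.Agent.Results.MP_321647_nt.RegularPoints
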