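import Pool.Agent.R345.IYFin

set_option autoImplicit false

/-!
# A theorem of Linnik's type for class groups of real quadratic fields

Linnik's theorem says that for all but `O(X^ε)` of the `d ≤ X` some prime up to `(log d)^a` splits in
`ℚ(√d)`, `a = a(ε)`.  Here such a very sparse exceptional set is obtained for the ideal classes of the
primes up to `(log d)^a`.  For every `a > 2` and `ε > 0`, for all but `O(X^(2/a+ε))` of the squarefree
`d ≤ X`, with `K = ℚ(√d)`, `h` the class number, `B = (log d)^a` and `n = log d / (2 log log d)`: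

* at least `h / d^(1/(2a)+ε)` ideal classes are products of at most `n` classes of prime ideals of norm
  at most `B`;
* the subgroup of the class group generated by the classes of the prime ideals of norm at most `B` has
  index at most `d^(1/(2a)+ε)`;
* if all prime ideals of norm at most `B` are principal, then `h ≤ d^(1/(2a)+ε)`.

Both exponents tend to zero as `a` tends to infinity.  So this applies to 100% of the members of thin
families, for example to the squarefree numbers `n^2 + 1` if `a > 4`.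
-/

namespace Pool.Agent.Results.MP_321647_nt.SparseExceptions

open Finset NumberField
open scoped Classical

/-- The ideal classes that are products of at most `n` classes of prime ideals of norm at most `B`. -/
def Reach (K : Type) [Field K] [NumberField K] (B n : ℝ) : Set (ClassGroup (𝓞 K)) :=
  {C | ∃ L : Multiset (nonZeroDivisors (Ideal (𝓞 K))),
    (∀ P ∈ L, (P : Ideal (𝓞 K)).IsPrime ∧ ((Ideal.absNorm (P : Ideal (𝓞 K)) : ℕ) : ℝ) ≤ B) ∧
    (L.card : ℝ) ≤ n ∧ (L.map (fun P => ClassGroup.mk0 P)).prod = C}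

/-- The subgroup of the class group generated by the classes of the nonzero prime ideals of norm at
most `B`. -/
noncomputable def Gen (K : Type) [Field K] [NumberField K] (B : ℝ) : Subgroup (ClassGroup (𝓞 K)) :=
  Subgroup.closure {c | ∃ P : nonZeroDivisors (Ideal (𝓞 K)), (P : Ideal (𝓞 K)).IsPrime ∧
    ((Ideal.absNorm (P : Ideal (𝓞 K)) : ℕ) : ℝ) ≤ B ∧ ClassGroup.mk0 P = c}

/-- The property of the squarefree integer `d` in the theorem. -/
def Good (a ε : ℝ) (d : ℕ) : Prop :=
  ∀ (K : Type) [Field K] [NumberField K], Module.finrank ℚ K = 2 → (∃ x : K, x ^ 2 = (d : K)) →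
    (Nat.card (ClassGroup (𝓞 K)) : ℝ) ≤ (d : ℝ) ^ (1 / (2 * a) + ε) *
      ((Reach K ((Real.log d) ^ a) (Real.log d / (2 * Real.log (Real.log d)))).ncard : ℝ) ∧
    ((Gen K ((Real.log d) ^ a)).index : ℝ) ≤ (d : ℝ) ^ (1 / (2 * a) + ε) ∧
    ((∀ P : Ideal (𝓞 K), P.IsPrime → ((Ideal.absNorm P : ℕ) : ℝ) ≤ (Real.log d) ^ a →
      P.IsPrincipal) → (Nat.card (ClassGroup (𝓞 K)) : ℝ) ≤ (d : ℝ) ^ (1 / (2 * a) + ε))

theorem reach_sub (K : Type) [Field K] [NumberField K] (B n : ℝ) :
    Reach K B n ⊆ (Gen K B : Set (ClassGroup (𝓞 K))) := by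
  rintro C ⟨L, h1, -, rfl⟩
  refine Subgroup.multiset_prod_mem _ _ ?_
  intro c hc
  obtain ⟨P, hP, rfl⟩ := Multiset.mem_map.1 hc
  exact Subgroup.subset_closure ⟨P, (h1 P hP).1, (h1 P hP).2, rfl⟩

theorem good_of (a ε : ℝ) (d : ℕ) (h : Pool.Agent.R345.IY.GoodJ a (1 / (2 * a) + ε) d) :
    Good a ε d := by
  intro K _ _ hK hx
  have h1 : (Nat.card (ClassGroup (𝓞 K)) : ℝ) ≤ (d : ℝ) ^ (1 / (2 * a) + ε) *
      ((Reach K ((Real.log d) ^ a) (Real.log d / (2 * Real.log (Real.log d)))).ncard : ℝ) :=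
    h K hK hx
  have hd : 0 ≤ (d : ℝ) ^ (1 / (2 * a) + ε) := Real.rpow_nonneg (Nat.cast_nonneg _) _
  set G := Gen K ((Real.log d) ^ a) with hG
  have h2 : ((Reach K ((Real.log d) ^ a) (Real.log d / (2 * Real.log (Real.log d)))).ncard : ℝ) ≤
      Nat.card G := by
    have h3 := Set.ncard_le_ncard
      (reach_sub K ((Real.log d) ^ a) (Real.log d / (2 * Real.log (Real.log d)))) (Set.toFinite _)
    have h4 : ((G : Subgroup (ClassGroup (𝓞 K))) : Set (ClassGroup (𝓞 K))).ncard = Nat.card G :=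
      rfl
    rw [← hG, h4] at h3
    exact_mod_cast h3
  have h5 : (0 : ℝ) < Nat.card G := by exact_mod_cast Nat.card_pos
  have h6 : (Nat.card (ClassGroup (𝓞 K)) : ℝ) = Nat.card G * G.index := by
    exact_mod_cast (Subgroup.card_mul_index G).symm
  refine ⟨h1, ?_, ?_⟩
  · have h7 : (G.index : ℝ) * Nat.card G ≤ (d : ℝ) ^ (1 / (2 * a) + ε) * Nat.card G := by
      calc (G.index : ℝ) * Nat.card G = Nat.card (ClassGroup (𝓞 K)) := by rw [h6]; ring
        _ ≤ (d : ℝ) ^ (1 / (2 * a) + ε) *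
          ((Reach K ((Real.log d) ^ a) (Real.log d / (2 * Real.log (Real.log d)))).ncard : ℝ) := h1
        _ ≤ _ := mul_le_mul_of_nonneg_left h2 hd
    exact le_of_mul_le_mul_right h7 h5
  · intro hP
    have h8 : G = ⊥ := by
      rw [hG, Gen, Subgroup.closure_eq_bot_iff]
      rintro c ⟨P, hp, hn, rfl⟩
      rw [Set.mem_singleton_iff, ClassGroup.mk0_eq_one_iff]
      exact hP _ hp hn
    have h9 : Nat.card G = 1 := by rw [h8]; exact Subgroup.card_bot
    rw [h9] at h2
    calc (Nat.card (ClassGroup (𝓞 K)) : ℝ) ≤ (d : ℝ) ^ (1 / (2 * a) + ε) *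
          ((Reach K ((Real.log d) ^ a) (Real.log d / (2 * Real.log (Real.log d)))).ncard : ℝ) := h1
      _ ≤ (d : ℝ) ^ (1 / (2 * a) + ε) * ((1 : ℕ) : ℝ) := mul_le_mul_of_nonneg_left h2 hd
      _ = _ := by rw [Nat.cast_one, mul_one]

/-- For every `a > 2` and `ε > 0` all but `O(X^(2/a+ε))` of the squarefree `d ≤ X` have the property
`Good a ε d`. -/
theorem result : ∀ a ε : ℝ, 2 < a → 0 < ε → ∃ C : ℝ, 0 < C ∧
    ∀ X : ℕ, (((Finset.Icc 2 X).filter (fun d => Squarefree d ∧ ¬ Good a ε d)).card : ℝ) ≤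
      C * (X : ℝ) ^ (2 / a + ε) := by
  intro a ε ha hε
  obtain ⟨C, hC, h⟩ := Pool.Agent.R345.IY.main2 a (by linarith) ε hε
  refine ⟨C, hC, fun X => le_trans ?_ (h X)⟩
  have hsub : (Finset.Icc 2 X).filter (fun d => Squarefree d ∧ ¬ Good a ε d) ⊆
      (Finset.Icc 2 X).filter (fun d => Squarefree d ∧
        ¬ Pool.Agent.R345.IY.GoodJ a (1 / (2 * a) + ε) d) := by
    intro d hd
    rw [Finset.mem_filter] at hd ⊢
    exact ⟨hd.1, hd.2.1, fun hg => hd.2.2 (good_of a ε d hg)⟩
  exact_mod_cast Finset.card_le_card hsub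

end Pool.Agent.Results.MP_321647_nt.SparseExceptions
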